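import Pool.Agent.helper80.EN.Spec

set_option autoImplicit false

namespace Pool.Agent.helper80.EN

open Subgroup

universe u

/-- In a nilpotent group all subgroups are subnormal. -/
theorem GRU_subnormal {Q : Type u} [Group Q] (hQ : Group.IsNilpotent Q) (K : Subgroup Q) :
    K.IsSubnormal := by
  obtain ⟨n, hn⟩ := hQ.nilpotent'
  have key : ∀ m : ℕ, m ≤ n → (K ⊔ Subgroup.upperCentralSeries Q (n - m)).IsSubnormal := by
    intro m
    induction m with
    | zero =>
      intro _
      rw [Nat.sub_zero, hn, sup_top_eq]
      exact IsSubnormal.top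
    | succ m ih =>
      intro hm
      have ih' := ih (by omega)
      have e : n - m = (n - (m + 1)) + 1 := by omega
      rw [e] at ih'
      refine IsSubnormal.step _ _ (sup_le_sup_left (Subgroup.upperCentralSeries_mono Q (Nat.le_succ _)) K)
        ih' ?_
      set i := n - (m + 1) with hi
      have hnorm : K ⊔ Subgroup.upperCentralSeries Q (i + 1) ≤
          normalizer ((K ⊔ Subgroup.upperCentralSeries Q i : Subgroup Q) : Set Q) := by
        refine sup_le (le_trans le_sup_left le_normalizer) ?_
        intro z hz
        rw [mem_normalizer_iff]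
        have hc : ∀ z ∈ Subgroup.upperCentralSeries Q (i + 1), ∀ x ∈ (K ⊔ Subgroup.upperCentralSeries Q i),
            z * x * z⁻¹ ∈ K ⊔ Subgroup.upperCentralSeries Q i := by
          intro z hz x hx
          have h1 := Subgroup.mem_upperCentralSeries_succ_iff.1 hz x
          have h2 : z * x * z⁻¹ = (z * x * z⁻¹ * x⁻¹) * x := by group
          rw [h2]
          exact mul_mem (mem_sup_right h1) hx
        intro x
        constructor
        · intro hx
          exact hc z hz x hx
        · intro hx
          have h3 := hc z⁻¹ (inv_mem hz) _ hx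
          have h4 : z⁻¹ * (z * x * z⁻¹) * z⁻¹⁻¹ = x := by group
          rwa [h4] at h3
      exact normal_subgroupOf_of_le_normalizer hnorm
  have h := key n le_rfl
  rw [Nat.sub_self, Subgroup.upperCentralSeries_zero, sup_bot_eq] at h
  exact h

/-- An element of the closure lies in the closure of a finite subset. -/
theorem GRU_closure {G : Type u} [Group G] {X : Set G} {x : G} (hx : x ∈ closure X) :
    ∃ B : Set G, B.Finite ∧ B ⊆ X ∧ x ∈ closure B := by
  induction hx using closure_induction with
  | mem z hz => exact ⟨{z}, Set.finite_singleton z, Set.singleton_subset_iff.2 hz,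
      subset_closure rfl⟩
  | one => exact ⟨∅, Set.finite_empty, Set.empty_subset _, one_mem _⟩
  | mul a b _ _ ha hb =>
    obtain ⟨A, hA1, hA2, hA3⟩ := ha
    obtain ⟨B, hB1, hB2, hB3⟩ := hb
    exact ⟨A ∪ B, hA1.union hB1, Set.union_subset hA2 hB2,
      mul_mem (closure_mono Set.subset_union_left hA3) (closure_mono Set.subset_union_right hB3)⟩
  | inv a _ ha =>
    obtain ⟨A, hA1, hA2, hA3⟩ := ha
    exact ⟨A, hA1, hA2, inv_mem hA3⟩

theorem GRU (h1 : NAE_stmt.{u}) (h2 : HPR_stmt.{u}) (h3 : SNB_stmt.{u}) (h4 : TRF_stmt.{u})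
    (h5 : BAS_stmt.{u}) : GRU_stmt.{u} := by
  intro T _ N D _ _ hND hN hD a ha hE
  -- conjugates of a are Engel on N
  have hconj : ∀ g : T, EngelOn N (g * a * g⁻¹) := by
    intro g x hx
    have hx' : g⁻¹ * x * g ∈ N := by
      have := (inferInstance : N.Normal).conj_mem x hx g⁻¹
      simpa using this
    obtain ⟨n, hn⟩ := hE _ hx'
    refine ⟨n, ?_⟩
    have hb := (h5 T).1 (g⁻¹ * x * g) a g⁻¹ n
    have e1 : g⁻¹⁻¹ * (g⁻¹ * x * g) * g⁻¹ = x := by group
    have e2 : g⁻¹⁻¹ * a * g⁻¹ = g * a * g⁻¹ := by group
    rw [e1, e2, hn] at hb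
    rw [hb]; group
  -- subgroups generated by finitely many conjugates of a
  have hfin : ∀ A : Set T, A.Finite → A ⊆ Group.conjugatesOfSet {a} → LocNilp (closure A) := by
    intro A hA hAc
    set Y := closure A with hY
    have hYD : Y ≤ D := by
      rw [hY, closure_le]
      intro c hc
      have := hAc hc
      rw [Group.mem_conjugatesOfSet_iff] at this
      obtain ⟨x, hx, hxc⟩ := this
      rw [Set.mem_singleton_iff] at hx
      subst hx
      rw [isConj_iff] at hxc
      obtain ⟨g, rfl⟩ := hxc
      exact (inferInstance : D.Normal).conj_mem _ ha g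
    have hYfg : Y.FG := ⟨hA.toFinset, by simp [hY]⟩
    have hQfg : (Y.map (QuotientGroup.mk' N)).FG := by
      classical
      refine ⟨hA.toFinset.image (QuotientGroup.mk' N), ?_⟩
      rw [hY, MonoidHom.map_closure]
      simp
    have hQn : Group.IsNilpotent (Y.map (QuotientGroup.mk' N)) :=
      hD _ hQfg (map_mono hYD)
    let f : Y →* (Y.map (QuotientGroup.mk' N)) := (QuotientGroup.mk' N).subgroupMap Y
    have hHP : HP Y = ⊤ := by
      rw [eq_top_iff]
      have hle : ∀ c (hc : c ∈ A), (⟨c, subset_closure hc⟩ : Y) ∈ HP Y := by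
        intro c hc
        have hcE : EngelOn N c := by
          have := hAc hc
          rw [Group.mem_conjugatesOfSet_iff] at this
          obtain ⟨x, hx, hxc⟩ := this
          rw [Set.mem_singleton_iff] at hx
          subst hx
          rw [isConj_iff] at hxc
          obtain ⟨g, rfl⟩ := hxc
          exact hconj g
        set c' : Y := ⟨c, subset_closure hc⟩ with hc'
        have hs : ((zpowers (f c')).comap f).IsSubnormal :=
          (GRU_subnormal hQn _).comap f
        have hl : LocNilp ((zpowers (f c')).comap f) := by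
          have hl0 : LocNilp (N ⊔ zpowers c) := h1 T N c inferInstance hN hcE
          have hl1 : LocNilp ((N ⊔ zpowers c).comap Y.subtype) :=
            (h4 Y).2.2.2.1 T Y.subtype _ Y.subtype_injective hl0
          refine (h4 Y).1 _ _ ?_ hl1
          intro y hy
          rw [mem_comap] at hy ⊢
          obtain ⟨i, hi⟩ := mem_zpowers_iff.1 hy
          have hi' : ((c : T) ^ i : T ⧸ N) = ((y : T) : T ⧸ N) := by
            have := congrArg (fun z : (Y.map (QuotientGroup.mk' N)) => (z : T ⧸ N)) hi
            simpa [f, hc'] using this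
          rw [← QuotientGroup.mk_zpow, QuotientGroup.eq] at hi'
          have h6 : (Y.subtype y : T) = c ^ i * ((c ^ i)⁻¹ * (y : T)) := by
            simp
          rw [h6]
          exact mul_mem (mem_sup_right (zpow_mem (mem_zpowers c) i)) (mem_sup_left hi')
        have := h3 Y _ hs hl
        apply this
        rw [mem_comap]
        exact mem_zpowers _
      intro y _
      have : (HP Y).map Y.subtype = Y := by
        apply le_antisymm
        · exact map_subtype_le _
        · conv_lhs => rw [hY]
          rw [closure_le]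
          intro c hc
          exact ⟨⟨c, subset_closure hc⟩, hle c hc, rfl⟩
      have hy : (y : T) ∈ (HP Y).map Y.subtype := by
        rw [this]; exact y.2
      obtain ⟨z, hz, hzy⟩ := hy
      have : z = y := Subtype.ext hzy
      rwa [← this]
    have hl : LocNilp (⊤ : Subgroup Y) := hHP ▸ (h2 Y).2.1
    have hm := ((h4 T).2.2.2.2.2.2 Y ⊤).1 hl
    have e : (⊤ : Subgroup Y).map Y.subtype = Y := by
      rw [← MonoidHom.range_eq_map, range_subtype]
    rwa [e] at hm
  have hC : LocNilp (normalClosure ({a} : Set T)) := by
    intro K hK hKC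
    obtain ⟨S, hS⟩ := hK
    have hSA : ∀ s : T, ∃ B : Set T, B.Finite ∧ B ⊆ Group.conjugatesOfSet {a} ∧
        (s ∈ S → s ∈ closure B) := by
      intro s
      by_cases hs : s ∈ S
      · have hsC : s ∈ closure (Group.conjugatesOfSet ({a} : Set T)) := by
          have : s ∈ K := by rw [← hS]; exact subset_closure hs
          exact hKC this
        obtain ⟨B, hB, hB', hB''⟩ := GRU_closure hsC
        exact ⟨B, hB, hB', fun _ => hB''⟩
      · exact ⟨∅, Set.finite_empty, Set.empty_subset _, fun h => absurd h hs⟩
    choose B hB1 hB2 hB3 using hSA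
    set A : Set T := ⋃ s ∈ (S : Set T), B s with hA
    have hAf : A.Finite := S.finite_toSet.biUnion fun s _ => hB1 s
    have hAc : A ⊆ Group.conjugatesOfSet {a} := Set.iUnion₂_subset fun s _ => hB2 s
    have hKA : K ≤ closure A := by
      rw [← hS, closure_le]
      intro s hs
      exact closure_mono (Set.subset_biUnion_of_mem (u := B) hs) (hB3 s hs)
    exact hfin A hAf hAc K ⟨S, hS⟩ hKA
  exact (h2 T).2.2.1 _ normalClosure_normal hC (subset_normalClosure rfl)

end Pool.Agent.helper80.EN
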